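import Pool.Agent.W217.BE.Stm3

set_option autoImplicit false

namespace Pool.Agent.W539.BELOC34

open Pool.Agent.W217.BE

section
variable {B : Type} [CommRing B] [IsLocalRing B]

theorem kill {m : ℕ} (L : (Fin m → B) →+ IsLocalRing.ResidueField B)
    (hL : IsF (IsLocalRing.residue B) L) (v : Fin m → B)
    (hv : ∀ j, v j ∈ IsLocalRing.maximalIdeal B) : L v = 0 := by
  have h1 : v = ∑ j, v j • (fun k => if j = k then (1 : B) else 0) := pi_eq_sum_univ v
  rw [h1, map_sum]
  apply Finset.sum_eq_zero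
  intro j _
  rw [hL, (IsLocalRing.residue_eq_zero_iff (v j)).mpr (hv j), zero_mul]

theorem certA (r : ℕ → ℕ) (d : ∀ i, (Fin (r (i + 1)) → B) →ₗ[B] (Fin (r i) → B))
    (hmin : ∀ i x j, d i x j ∈ IsLocalRing.maximalIdeal B) (i n : ℕ) (hn : n ≤ r i) :
    Cert (IsLocalRing.residue B) (fun i => Fin (r i) → B) d i n := by
  refine ⟨fun j => Pi.single (Fin.castLE hn j) 1,
    fun j => (IsLocalRing.residue B).toAddMonoidHom.comp
      (Pi.evalAddMonoidHom (fun _ : Fin (r i) => B) (Fin.castLE hn j)), ?_, ?_, ?_, ?_⟩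
  · intro j
    cases i with
    | zero => trivial
    | succ k =>
      intro L hL
      exact kill L hL _ (fun j' => hmin k _ j')
  · intro j s x
    show IsLocalRing.residue B ((s • x) (Fin.castLE hn j)) = IsLocalRing.residue B s * IsLocalRing.residue B (x (Fin.castLE hn j))
    rw [Pi.smul_apply, smul_eq_mul, map_mul]
  · intro j x
    exact (IsLocalRing.residue_eq_zero_iff _).mpr (hmin i x _)
  · intro j k
    show IsLocalRing.residue B ((Pi.single (Fin.castLE hn k) (1 : B) : Fin (r i) → B) (Fin.castLE hn j)) = _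
    by_cases hjk : j = k
    · rw [if_pos hjk, hjk, Pi.single_eq_same, map_one]
    · rw [if_neg hjk, Pi.single_eq_of_ne, map_zero]
      intro h
      exact hjk (Fin.castLE_injective hn h)

/-- a free module of rank `n` all of whose elements have entries in the maximal ideal is zero -/
theorem zero_of_top {n : ℕ} (h : ∀ (x : Fin n → B) j, x j ∈ IsLocalRing.maximalIdeal B) :
    n = 0 := by
  by_contra hn
  have h1 := h (fun _ => 1) ⟨0, Nat.pos_of_ne_zero hn⟩
  exact (Ideal.ne_top_iff_one _).1 (IsLocalRing.maximalIdeal.isMaximal B).ne_top h1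

/-- if the differential `i` vanishes then the next module is zero -/
theorem zero_succ {a b c : ℕ} (d : (Fin b → B) →ₗ[B] (Fin a → B))
    (d' : (Fin c → B) →ₗ[B] (Fin b → B)) (hex : LinearMap.range d' = LinearMap.ker d)
    (hmin : ∀ x j, d' x j ∈ IsLocalRing.maximalIdeal B) (hd : d = 0) : b = 0 := by
  apply zero_of_top (B := B)
  intro x j
  have hx : x ∈ LinearMap.range d' := by
    rw [hex, LinearMap.mem_ker, hd]
    rfl
  obtain ⟨y, rfl⟩ := hx
  exact hmin y j

theorem rzero_succ (r : ℕ → ℕ) (d : ∀ i, (Fin (r (i + 1)) → B) →ₗ[B] (Fin (r i) → B))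
    (hex : ∀ i, LinearMap.range (d (i + 1)) = LinearMap.ker (d i))
    (hmin : ∀ i x j, d i x j ∈ IsLocalRing.maximalIdeal B) (i : ℕ) (hi : r i = 0) :
    r (i + 1) = 0 := by
  apply zero_succ (d i) (d (i + 1)) (hex i) (hmin (i + 1))
  apply LinearMap.ext
  intro x
  funext j
  exact absurd j.isLt (by omega)

theorem rzero_of_le (r : ℕ → ℕ) (d : ∀ i, (Fin (r (i + 1)) → B) →ₗ[B] (Fin (r i) → B))
    (hex : ∀ i, LinearMap.range (d (i + 1)) = LinearMap.ker (d i))
    (hmin : ∀ i x j, d i x j ∈ IsLocalRing.maximalIdeal B) (i j : ℕ) (hij : i ≤ j)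
    (hi : r i = 0) : r j = 0 := by
  obtain ⟨k, rfl⟩ := Nat.exists_eq_add_of_le hij
  clear hij
  induction k with
  | zero => exact hi
  | succ k ih => exact rzero_succ r d hex hmin (i + k) ih

theorem r0_pos {N : Type} [AddCommGroup N] [Module B N] [Nontrivial N] {n : ℕ}
    (ε : (Fin n → B) →ₗ[B] N) (hs : Function.Surjective ε) : n ≠ 0 := by
  intro h0
  have hsub : Subsingleton (Fin n → B) := by
    subst h0; infer_instance
  have hN : Subsingleton N := hs.subsingleton
  exact not_subsingleton N hN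

/-- a vector killed by the maximal ideal -/
theorem exists_socle [IsNoetherianRing B] {N : Type} [AddCommGroup N] [Module B N]
    [Module.Finite B N] [Nontrivial N]
    (h : ∀ q : Ideal B, q.IsPrime → Module.annihilator B N ≤ q →
      q = IsLocalRing.maximalIdeal B) :
    ∃ w : N, w ≠ 0 ∧ ∀ a ∈ IsLocalRing.maximalIdeal B, a • w = 0 := by
  obtain ⟨q, hq⟩ := associatedPrimes.nonempty B N
  have hqp : q.IsPrime := hq.1
  obtain ⟨w, hw⟩ := ((isAssociatedPrime_iff_exists_injective_linearMap (R := B) (I := q) (M := N)).1 hq).2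
  refine ⟨w (Ideal.Quotient.mk q 1), ?_, ?_⟩
  · intro h0
    have h1 := hw (h0.trans (map_zero w).symm)
    exact hqp.ne_top ((Ideal.eq_top_iff_one q).2 (Ideal.Quotient.eq_zero_iff_mem.1 h1))
  · intro a ha
    have hqm : q = IsLocalRing.maximalIdeal B := by
      apply h q hqp
      intro b hb
      have h2 : b • w (Ideal.Quotient.mk q 1) = 0 := Module.mem_annihilator.1 hb _
      rw [← map_smul] at h2
      have h3 := hw (h2.trans (map_zero w).symm)
      have h4 : Ideal.Quotient.mk q b = 0 := by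
        rw [← h3, map_one]
        exact Algebra.algebraMap_eq_smul_one b
      exact Ideal.Quotient.eq_zero_iff_mem.1 h4
    rw [← map_smul]
    have h5 : a • Ideal.Quotient.mk q 1 = 0 := by
      rw [map_one]
      exact (Algebra.algebraMap_eq_smul_one a).symm.trans
        (Ideal.Quotient.eq_zero_iff_mem.2 (hqm ▸ ha))
    rw [h5, map_zero]

end

theorem main : MINRES → INDEP → MAC → REGDOM → REGRES → RKX → DUALM → LOC34 := by
  intro hMIN hIND hMAC hDOM hREG hRKX hDUAL B _ _ N _ _ _ _ hq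
  haveI : IsDomain B := hDOM B
  obtain ⟨r, dX, ε, hX, hmin⟩ := hMIN B N
  obtain ⟨hsur, hex0, hex⟩ := hX
  have hX : IsRes (P := fun i => Fin (r i) → B) dX ε := ⟨hsur, hex0, hex⟩
  obtain ⟨w, hw0, hw⟩ := exists_socle hq
  have htop : (IsLocalRing.maximalIdeal B).height ≠ ⊤ :=
    Ideal.height_ne_top (IsLocalRing.maximalIdeal.isMaximal B).ne_top
  obtain ⟨d, hd⟩ : ∃ d : ℕ, (IsLocalRing.maximalIdeal B).height = (d : ℕ∞) :=
    ⟨_, (ENat.coe_toNat htop).symm⟩
  obtain ⟨hbig, hnz⟩ := hREG d B hd N r dX ε hX hmin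
  have hrd : r d ≠ 0 := hnz ⟨w, hw0, hw⟩
  have hrne : ∀ i, i ≤ d → r i ≠ 0 := fun i hi h0 => hrd (rzero_of_le r dX hex hmin i d hi h0)
  have key : 3 ≤ d → (∃ x, dX 2 x ≠ 0) ∧ ∃ a : B, a ≠ 0 ∧ ∀ x : N, a • x = 0 := by
    intro h3
    constructor
    · by_contra hcon
      push Not at hcon
      exact hrne 3 h3 (zero_succ (dX 2) (dX 3) (hex 2) (hmin 3) (LinearMap.ext hcon))
    · by_contra hcon
      push Not at hcon
      have hann : Module.annihilator B N ≤ ⊥ := by
        intro a ha
        by_contra ha0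
        obtain ⟨x, hx⟩ := hcon a (fun h => ha0 (by rw [h]; exact Submodule.zero_mem _))
        exact hx (Module.mem_annihilator.1 ha x)
      have hbot := hq ⊥ Ideal.isPrime_bot hann
      rw [← hbot, Ideal.height_bot] at hd
      have : d = 0 := by exact_mod_cast hd.symm
      omega
  refine ⟨fun h3 P _ _ _ dP εP hP i => ?_, fun h4 P _ _ _ dP εP hP i => ?_⟩
  · apply hIND B _ (IsLocalRing.residue B) N (fun i => Fin (r i) → B) P dX ε dP εP hX hP i _
    apply certA r dX hmin
    have h3d : 3 ≤ d := by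
      rw [hd] at h3
      exact_mod_cast h3
    obtain ⟨hd2, a, ha0, ha⟩ := key h3d
    have hm := hMAC B N (r 0) (r 1) 3 (dX 0) ε (hmin 0) hsur hex0 hq (by norm_num) h3
    have hx := (hRKX B N a ha0 ha r dX ε hX).1 hd2
    have h0 := hrne 0 (by omega)
    have h3' := hrne 3 h3d
    rcases i with _ | _ | _ | _ | i
    · show 1 ≤ r 0
      omega
    · show 3 ≤ r 1
      omega
    · show 3 ≤ r 2
      omega
    · show 1 ≤ r 3
      omega
    · show Nat.choose 3 (i + 4) ≤ _
      rw [Nat.choose_eq_zero_of_lt (by omega)]; exact Nat.zero_le _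
  · apply hIND B _ (IsLocalRing.residue B) N (fun i => Fin (r i) → B) P dX ε dP εP hX hP i _
    apply certA r dX hmin
    have h4d : d = 4 := by
      rw [hd] at h4
      exact_mod_cast h4
    subst h4d
    obtain ⟨hd2, a, ha0, ha⟩ := key (by omega)
    have hle : ((4 : ℕ) : ℕ∞) ≤ (IsLocalRing.maximalIdeal B).height := le_of_eq hd.symm
    have hm := hMAC B N (r 0) (r 1) 4 (dX 0) ε (hmin 0) hsur hex0 hq (by norm_num) hle
    have h5 := hbig 5 (by omega)
    have hdual := hDUAL B N r dX ε 4 hX hmin hq h5 hrd (by norm_num) hle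
    have hx := (hRKX B N a ha0 ha r dX ε hX).2 h5
    have h0 := hrne 0 (by omega)
    have h4' := hrne 4 (by omega)
    rcases i with _ | _ | _ | _ | _ | i
    · show 1 ≤ r 0
      omega
    · show 4 ≤ r 1
      omega
    · show 6 ≤ r 2
      omega
    · show 4 ≤ r 3
      omega
    · show 1 ≤ r 4
      omega
    · show Nat.choose 4 (i + 5) ≤ _
      rw [Nat.choose_eq_zero_of_lt (by omega)]; exact Nat.zero_le _

end Pool.Agent.W539.BELOC34
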