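import Mathlib

set_option autoImplicit false

namespace Pool.Agent.W539.MGARI

/-- number of `false` in `[1,r]` -/
def rho' (f : ℕ → Bool) (r : ℕ) : ℕ := ((Finset.Icc 1 r).filter (fun y => f y = false)).card

lemma rho_congr {f g : ℕ → Bool} {r : ℕ} (h : ∀ y, y ≤ r → f y = g y) : rho' f r = rho' g r := by
  unfold rho'
  congr 1
  apply Finset.filter_congr
  intro y hy
  rw [h y (Finset.mem_Icc.1 hy).2]

lemma rho_succ (f : ℕ → Bool) (r : ℕ) :
    rho' f (r + 1) = rho' f r + (if f (r + 1) = false then 1 else 0) := by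
  unfold rho'
  have : Finset.Icc 1 (r + 1) = insert (r + 1) (Finset.Icc 1 r) := by
    ext y
    simp only [Finset.mem_Icc, Finset.mem_insert]
    omega
  rw [this, Finset.filter_insert]
  by_cases h : f (r + 1) = false
  · rw [if_pos h, if_pos h, Finset.card_insert_of_notMem]
    intro hm
    have := (Finset.mem_Icc.1 (Finset.mem_filter.1 hm).1).2
    omega
  · rw [if_neg h, if_neg h, add_zero]

def R (p k v : ℕ) : Prop :=
  ∃ f : ℕ → Bool, ∑ r ∈ Finset.range (k + 1), (2 ^ rho' f r - 1) = v ∧ rho' f k = p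

lemma R_zero (k : ℕ) : R 0 k 0 := by
  have h0 : ∀ r, rho' (fun _ => true) r = 0 := by
    intro r
    unfold rho'
    simp
  refine ⟨fun _ => true, ?_, h0 k⟩
  apply Finset.sum_eq_zero
  intro r _
  rw [h0]
  rfl

lemma R_step {p k v : ℕ} (b : Bool) (h : R p k v) :
    R (p + (if b = false then 1 else 0)) (k + 1)
      (v + (2 ^ (p + (if b = false then 1 else 0)) - 1)) := by
  obtain ⟨f, hv, hp⟩ := h
  let g : ℕ → Bool := fun y => if y = k + 1 then b else f y
  have hg : ∀ r, r ≤ k → rho' g r = rho' f r := by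
    intro r hr
    apply rho_congr
    intro y hy
    show (if y = k + 1 then b else f y) = f y
    rw [if_neg (by omega)]
  have hg1 : rho' g (k + 1) = p + (if b = false then 1 else 0) := by
    rw [rho_succ, hg k le_rfl, hp]
    have : g (k + 1) = b := if_pos rfl
    rw [this]
  refine ⟨g, ?_, hg1⟩
  rw [Finset.sum_range_succ, hg1, ← hv]
  congr 1
  apply Finset.sum_congr rfl
  intro r hr
  rw [hg r (by have := Finset.mem_range.1 hr; omega)]

lemma R_stay {p k v : ℕ} (h : R p k v) : R p (k + 1) (v + (2 ^ p - 1)) := by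
  have := R_step true h
  simpa using this

lemma R_up {p k v : ℕ} (h : R p k v) : R (p + 1) (k + 1) (v + (2 ^ (p + 1) - 1)) := by
  have := R_step false h
  simpa using this

def B : ℕ → ℕ
  | 0 => 0
  | p + 1 => B p + (2 ^ (p + 1) - 1)

lemma B_eq (p : ℕ) : B p + 2 + p = 2 ^ (p + 1) := by
  induction p with
  | zero => rfl
  | succ p ih =>
    have h1 : 1 ≤ 2 ^ (p + 1) := Nat.one_le_two_pow
    have h2 : 2 ^ (p + 1 + 1) = 2 * 2 ^ (p + 1) := by ring
    show B p + (2 ^ (p + 1) - 1) + 2 + (p + 1) = _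
    omega

lemma Z (p : ℕ) : ∀ k, p ≤ k → R p k (B p) := by
  induction p with
  | zero => intro k _; exact R_zero k
  | succ p ih =>
    intro k hk
    obtain ⟨k, rfl⟩ : ∃ k', k = k' + 1 := ⟨k - 1, by omega⟩
    exact R_up (ih k (by omega))

lemma claim (p : ℕ) : ∀ x, x ≤ 2 * (2 ^ p - 1) → ∃ m, m ≤ p + 1 ∧ ∀ k, p + m ≤ k →
    R p k (B p + x) := by
  induction p with
  | zero =>
    intro x hx
    have : x = 0 := by simpa using hx
    subst this
    exact ⟨0, by omega, fun k _ => R_zero k⟩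
  | succ p ih =>
    intro x hx
    have h1 : 1 ≤ 2 ^ p := Nat.one_le_two_pow
    have h2 : 2 ^ (p + 1) = 2 * 2 ^ p := by ring
    by_cases hA : x ≤ 2 * (2 ^ p - 1)
    · obtain ⟨m, hm, hk⟩ := ih x hA
      refine ⟨m, by omega, fun k hkk => ?_⟩
      obtain ⟨k, rfl⟩ : ∃ k', k = k' + 1 := ⟨k - 1, by omega⟩
      have := R_up (hk k (by omega))
      have he : B (p + 1) + x = B p + x + (2 ^ (p + 1) - 1) := by
        show B p + (2 ^ (p + 1) - 1) + x = _
        omega
      rw [he]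
      exact this
    · by_cases hB : x < 2 * (2 ^ (p + 1) - 1)
      · obtain ⟨m, hm, hk⟩ := ih (x - (2 ^ (p + 1) - 1)) (by omega)
        refine ⟨m + 1, by omega, fun k hkk => ?_⟩
        obtain ⟨k, rfl⟩ : ∃ k', k = k' + 1 + 1 := ⟨k - 2, by omega⟩
        have := R_stay (R_up (hk k (by omega)))
        have he : B (p + 1) + x = B p + (x - (2 ^ (p + 1) - 1)) + (2 ^ (p + 1) - 1) +
            (2 ^ (p + 1) - 1) := by
          show B p + (2 ^ (p + 1) - 1) + x = _
          omega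
        rw [he]
        exact this
      · have hx2 : x = 2 * (2 ^ (p + 1) - 1) := by omega
        refine ⟨2, by omega, fun k hkk => ?_⟩
        obtain ⟨k, rfl⟩ : ∃ k', k = k' + 1 + 1 := ⟨k - 2, by omega⟩
        have := R_stay (R_stay (Z (p + 1) k (by omega)))
        have he : B (p + 1) + x = B (p + 1) + (2 ^ (p + 1) - 1) + (2 ^ (p + 1) - 1) := by
          omega
        rw [he]
        exact this

lemma find (P : ℕ) : ∀ u, u < B (P + 1) → ∃ p, p ≤ P ∧ B p ≤ u ∧ u < B (p + 1) := by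
  induction P with
  | zero => intro u hu; exact ⟨0, le_rfl, Nat.zero_le _, hu⟩
  | succ P ih =>
    intro u hu
    by_cases h : u < B (P + 1)
    · obtain ⟨p, hp, h1, h2⟩ := ih u h
      exact ⟨p, by omega, h1, h2⟩
    · exact ⟨P + 1, le_rfl, by omega, hu⟩

theorem ari (n u : ℕ) (hn : 4 ≤ n) (hu : u + n / 2 + 2 ≤ 2 ^ (n / 2)) :
    ∃ f : ℕ → Bool, ∑ r ∈ Finset.range (n - 2), (2 ^ rho' f r - 1) = u := by
  obtain ⟨P, hP⟩ : ∃ P, n / 2 = P + 2 := ⟨n / 2 - 2, by omega⟩
  have hB := B_eq (P + 1)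
  rw [hP] at hu
  have h3 : 2 ^ (P + 1 + 1) = 2 ^ (P + 2) := rfl
  obtain ⟨p, hp, h1, h2⟩ := find P u (by omega)
  have h4 : B (p + 1) = B p + (2 ^ (p + 1) - 1) := rfl
  have h5 : 2 ^ (p + 1) = 2 * 2 ^ p := by ring
  have h6 : 1 ≤ 2 ^ p := Nat.one_le_two_pow
  obtain ⟨m, hm, hk⟩ := claim p (u - B p) (by omega)
  obtain ⟨f, hf, -⟩ := hk (n - 3) (by omega)
  refine ⟨f, ?_⟩
  have h7 : n - 3 + 1 = n - 2 := by omega
  rw [h7] at hf
  rw [hf]
  omega

end Pool.Agent.W539.MGARI
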